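import Mathlib
import Pool.Agent.H679NR.Final

set_option autoImplicit false

open Set Cardinal Filter
open scoped Topology

namespace Pool.Agent.Results.MP_ba6bfd_gt.NotProvable

open Pool.Agent.H679NR

/-- `X` is Eberlein compact, in the form given by the theorem of Amir and Lindenstrauss: `X` is compact
Hausdorff and homeomorphic to a bounded subset of `c₀(T)`, with the topology of pointwise convergence,
for some set `T`. -/
def Eberlein (X : Type) [TopologicalSpace X] : Prop :=
  CompactSpace X ∧ T2Space X ∧ ∃ (T : Type) (f : X → T → ℝ), Topology.IsEmbedding f ∧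
    (∀ x, Tendsto (f x) cofinite (𝓝 0)) ∧ ∃ M : ℝ, ∀ x t, |f x t| ≤ M

/-- It is consistent with ZFC that there is a compact space which is not Eberlein compact, although the
closure of every set of at most continuum many points is Eberlein compact.

* First part: there are a (nonempty) forcing notion `P` and a linear order `W` such that every
  condition of `P` forces the sentence `Phi P W` of the forcing language of `P`. (`W` is the first
  cardinal above the continuum, and the conditions are the bounded sets of limits of countable
  cofinality which are nonstationary in every limit element.) No hypothesis is made.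
* Second part: for the trivial forcing notion `Phi` has its ordinary meaning, spelled out in `Phi₀`:
  `W` is a well-ordered, regular set with more elements than the continuum, and it has a nonreflecting
  stationary set of limits of countable cofinality.
* Third part: if some `W` satisfies `Phi₀`, then there is a compact Hausdorff space which is not
  Eberlein compact, although the closure of every set of at most continuum many points is. -/
theorem result :
    (∃ (P W : Type) (_ : Preorder P) (_ : LinearOrder W), Nonempty P ∧ ∀ p : P, p ∈ Phi P W) ∧
    (∀ (W : Type) [LinearOrder W], PUnit.unit ∈ Phi PUnit.{1} W ↔ Phi₀ W) ∧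
    ((∃ (W : Type) (_ : LinearOrder W), Phi₀ W) →
      ∃ (X : Type) (_ : TopologicalSpace X), CompactSpace X ∧ T2Space X ∧
        (∀ A : Set X, #A ≤ 𝔠 → Eberlein (closure A)) ∧ ¬ Eberlein X) := by
  refine ⟨exists_forcing, fun W _ => phi_iff W, ?_⟩
  rintro ⟨W, _, hW⟩
  obtain ⟨X, t, h1, h2, h3, h4⟩ := plain hW
  refine ⟨X, t, h1, h2, fun A hA => ?_, fun ⟨_, _, T, f, hf, hs, _⟩ =>
    h4 ⟨T, f, hf.continuous, hf.injective, fun x => ?_⟩⟩
  · obtain ⟨T, f, hf, hs, hb⟩ := h3 A hA
    refine ⟨isCompact_iff_compactSpace.1 isClosed_closure.isCompact, inferInstance, T, f, hf,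
      fun x => ?_, 1, hb⟩
    refine tendsto_nhds_of_eventually_eq ?_
    rw [Filter.eventually_cofinite]
    exact (hs x).subset fun t ht => ht
  · have h5 : Function.support (f x) ⊆ ⋃ n : ℕ, {t | 1 / ((n : ℝ) + 1) ≤ |f x t|} := by
      intro t ht
      obtain ⟨n, hn⟩ := exists_nat_one_div_lt (abs_pos.2 ht)
      exact mem_iUnion.2 ⟨n, hn.le⟩
    refine (countable_iUnion fun n => Set.Finite.countable ?_).mono h5
    have h6 : ∀ᶠ t in cofinite, |f x t| < 1 / ((n : ℝ) + 1) := by
      have h7 := (hs x).abs
      rw [abs_zero] at h7
      exact h7.eventually (gt_mem_nhds (by positivity))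
    rw [Filter.eventually_cofinite] at h6
    exact h6.subset fun t ht => not_lt.2 ht

end Pool.Agent.Results.MP_ba6bfd_gt.NotProvable
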